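import Mathlib

set_option autoImplicit false

namespace Pool.Agent.R80.R3

open Finset

def Col2 (n m : ℕ) : Prop := ∃ c : ℕ → ℕ → ℕ, (∀ x y, c x y < m) ∧ ∀ x y z, x < y → y < z → z < n →
  ¬ (c x y = c x z ∧ c x y = c y z)

def Col3 (n m : ℕ) : Prop := ∃ c : ℕ → ℕ → ℕ → ℕ, (∀ x y z, c x y z < m) ∧
  ∀ x y z w, x < y → y < z → z < w → w < n →
    ¬ (c x y z = c x y w ∧ c x y z = c x z w ∧ c x y z = c y z w)

/-- `H 0, ..., H (m-1)` are `r`-graphs on `n` vertices (sets of `r`-element sets), none of which
contains a complete `r`-graph on `r + 1` vertices, and every `r`-set is an edge of one of them. -/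
def IsCover (r n m : ℕ) (H : Fin m → Finset (Finset (Fin n))) : Prop :=
  (∀ i, ∀ s ∈ H i, s.card = r) ∧
  (∀ i, ∀ A : Finset (Fin n), A.card = r + 1 → ¬ ∀ s ⊆ A, s.card = r → s ∈ H i) ∧
  ∀ s : Finset (Fin n), s.card = r → ∃ i, s ∈ H i

/-- the least number of `r`-graphs without a complete `r`-graph on `r + 1` vertices whose union is
the complete `r`-graph on `n` vertices -/
noncomputable def f (r n : ℕ) : ℕ :=
  sInf {m | ∃ H : Fin m → Finset (Finset (Fin n)), IsCover r n m H}

theorem col2_of_cover {n m : ℕ} (hm : 1 ≤ m) {H : Fin m → Finset (Finset (Fin n))}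
    (h : IsCover 2 n m H) : Col2 n m := by
  classical
  obtain ⟨-, h1, h2⟩ := h
  have h3 : ∀ s : Finset (Fin n), ∃ i : Fin m, s.card = 2 → s ∈ H i := by
    intro s
    by_cases hs : s.card = 2
    · obtain ⟨i, hi⟩ := h2 s hs
      exact ⟨i, fun _ => hi⟩
    · exact ⟨⟨0, hm⟩, fun h => absurd h hs⟩
  choose i hi using h3
  refine ⟨fun x y => if h : x < n ∧ y < n then (i {⟨x, h.1⟩, ⟨y, h.2⟩}).val else 0, ?_, ?_⟩
  · intro x y
    dsimp only
    split_ifs with h
    · exact (i _).isLt
    · exact hm
  · intro x y z hxy hyz hz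
    have hy : y < n := hyz.trans hz
    have hx : x < n := hxy.trans hy
    rintro ⟨e1, e2⟩
    dsimp only at e1 e2
    rw [dif_pos ⟨hx, hy⟩, dif_pos ⟨hx, hz⟩] at e1
    rw [dif_pos ⟨hx, hy⟩, dif_pos ⟨hy, hz⟩] at e2
    set X : Fin n := ⟨x, hx⟩ with hX
    set Y : Fin n := ⟨y, hy⟩ with hY
    set Z : Fin n := ⟨z, hz⟩ with hZ
    have nXY : X ≠ Y := by simp only [hX, hY, ne_eq, Fin.mk.injEq]; omega
    have nXZ : X ≠ Z := by simp only [hX, hZ, ne_eq, Fin.mk.injEq]; omega
    have nYZ : Y ≠ Z := by simp only [hY, hZ, ne_eq, Fin.mk.injEq]; omega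
    have hA : ({X, Y, Z} : Finset (Fin n)).card = 3 := card_eq_three.2 ⟨X, Y, Z, nXY, nXZ, nYZ, rfl⟩
    refine h1 (i {X, Y}) {X, Y, Z} hA fun s hs hc => ?_
    obtain ⟨a, ha, has⟩ := exists_mem_notMem_of_card_lt_card (s := s) (t := {X, Y, Z}) (by omega)
    simp only [mem_insert, mem_singleton] at ha
    have key : ∀ B : Finset (Fin n), s ⊆ B → B.card ≤ 2 → i B = i {X, Y} → s ∈ H (i {X, Y}) := by
      intro B hB hB2 hiB
      have : s = B := eq_of_subset_of_card_le hB (by omega)
      rw [← hiB, ← this]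
      exact hi s hc
    rcases ha with rfl | rfl | rfl
    · refine key {Y, Z} ?_ card_le_two (Fin.ext e2.symm)
      intro t ht
      have := hs ht
      simp only [mem_insert, mem_singleton] at this ⊢
      rcases this with h | h | h
      · exact absurd (h ▸ ht) has
      · exact Or.inl h
      · exact Or.inr h
    · refine key {X, Z} ?_ card_le_two (Fin.ext e1.symm)
      intro t ht
      have := hs ht
      simp only [mem_insert, mem_singleton] at this ⊢
      rcases this with h | h | h
      · exact Or.inl h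
      · exact absurd (h ▸ ht) has
      · exact Or.inr h
    · refine key {X, Y} ?_ card_le_two rfl
      intro t ht
      have := hs ht
      simp only [mem_insert, mem_singleton] at this ⊢
      rcases this with h | h | h
      · exact Or.inl h
      · exact Or.inr h
      · exact absurd (h ▸ ht) has

theorem col3_of_cover {n m : ℕ} (hm : 1 ≤ m) {H : Fin m → Finset (Finset (Fin n))}
    (h : IsCover 3 n m H) : Col3 n m := by
  classical
  obtain ⟨-, h1, h2⟩ := h
  have h3 : ∀ s : Finset (Fin n), ∃ i : Fin m, s.card = 3 → s ∈ H i := by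
    intro s
    by_cases hs : s.card = 3
    · obtain ⟨i, hi⟩ := h2 s hs
      exact ⟨i, fun _ => hi⟩
    · exact ⟨⟨0, hm⟩, fun h => absurd h hs⟩
  choose i hi using h3
  refine ⟨fun x y z => if h : x < n ∧ y < n ∧ z < n then
    (i {⟨x, h.1⟩, ⟨y, h.2.1⟩, ⟨z, h.2.2⟩}).val else 0, ?_, ?_⟩
  · intro x y z
    dsimp only
    split_ifs with h
    · exact (i _).isLt
    · exact hm
  · intro x y z w hxy hyz hzw hw
    have hz : z < n := hzw.trans hw
    have hy : y < n := hyz.trans hz
    have hx : x < n := hxy.trans hy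
    rintro ⟨e1, e2, e3⟩
    dsimp only at e1 e2 e3
    rw [dif_pos ⟨hx, hy, hz⟩, dif_pos ⟨hx, hy, hw⟩] at e1
    rw [dif_pos ⟨hx, hy, hz⟩, dif_pos ⟨hx, hz, hw⟩] at e2
    rw [dif_pos ⟨hx, hy, hz⟩, dif_pos ⟨hy, hz, hw⟩] at e3
    set X : Fin n := ⟨x, hx⟩ with hX
    set Y : Fin n := ⟨y, hy⟩ with hY
    set Z : Fin n := ⟨z, hz⟩ with hZ
    set W : Fin n := ⟨w, hw⟩ with hW
    have nXY : X ≠ Y := by simp only [hX, hY, ne_eq, Fin.mk.injEq]; omega
    have nXZ : X ≠ Z := by simp only [hX, hZ, ne_eq, Fin.mk.injEq]; omega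
    have nXW : X ≠ W := by simp only [hX, hW, ne_eq, Fin.mk.injEq]; omega
    have nYZ : Y ≠ Z := by simp only [hY, hZ, ne_eq, Fin.mk.injEq]; omega
    have nYW : Y ≠ W := by simp only [hY, hW, ne_eq, Fin.mk.injEq]; omega
    have nZW : Z ≠ W := by simp only [hZ, hW, ne_eq, Fin.mk.injEq]; omega
    have hA : ({X, Y, Z, W} : Finset (Fin n)).card = 4 := by
      rw [card_insert_of_notMem (by simp [nXY, nXZ, nXW]),
        card_eq_three.2 ⟨Y, Z, W, nYZ, nYW, nZW, rfl⟩]
    refine h1 (i {X, Y, Z}) {X, Y, Z, W} hA fun s hs hc => ?_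
    obtain ⟨a, ha, has⟩ := exists_mem_notMem_of_card_lt_card (s := s) (t := {X, Y, Z, W}) (by omega)
    simp only [mem_insert, mem_singleton] at ha
    have key : ∀ B : Finset (Fin n), s ⊆ B → B.card ≤ 3 → i B = i {X, Y, Z} →
        s ∈ H (i {X, Y, Z}) := by
      intro B hB hB2 hiB
      have : s = B := eq_of_subset_of_card_le hB (by omega)
      rw [← hiB, ← this]
      exact hi s hc
    rcases ha with rfl | rfl | rfl | rfl
    · refine key {Y, Z, W} ?_ card_le_three (Fin.ext e3.symm)
      intro t ht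
      have := hs ht
      simp only [mem_insert, mem_singleton] at this ⊢
      rcases this with h | h | h | h
      · exact absurd (h ▸ ht) has
      · exact Or.inl h
      · exact Or.inr (Or.inl h)
      · exact Or.inr (Or.inr h)
    · refine key {X, Z, W} ?_ card_le_three (Fin.ext e2.symm)
      intro t ht
      have := hs ht
      simp only [mem_insert, mem_singleton] at this ⊢
      rcases this with h | h | h | h
      · exact Or.inl h
      · exact absurd (h ▸ ht) has
      · exact Or.inr (Or.inl h)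
      · exact Or.inr (Or.inr h)
    · refine key {X, Y, W} ?_ card_le_three (Fin.ext e1.symm)
      intro t ht
      have := hs ht
      simp only [mem_insert, mem_singleton] at this ⊢
      rcases this with h | h | h | h
      · exact Or.inl h
      · exact Or.inr (Or.inl h)
      · exact absurd (h ▸ ht) has
      · exact Or.inr (Or.inr h)
    · refine key {X, Y, Z} ?_ card_le_three rfl
      intro t ht
      have := hs ht
      simp only [mem_insert, mem_singleton] at this ⊢
      rcases this with h | h | h | h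
      · exact Or.inl h
      · exact Or.inr (Or.inl h)
      · exact Or.inr (Or.inr h)
      · exact absurd (h ▸ ht) has

theorem cover_of_col2 {n m : ℕ} (h : Col2 n m) :
    ∃ H : Fin m → Finset (Finset (Fin n)), IsCover 2 n m H := by
  classical
  obtain ⟨c, hc, hmono⟩ := h
  refine ⟨fun i => univ.filter fun s => ∃ h : s.card = 2,
    c (s.orderEmbOfFin h 0) (s.orderEmbOfFin h 1) = i, ?_, ?_, ?_⟩
  · intro i s hs
    exact (mem_filter.1 hs).2.1
  · intro i A hA hall
    set e := A.orderEmbOfFin hA with he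
    have l01 : e 0 < e 1 := e.strictMono (by decide)
    have l12 : e 1 < e 2 := e.strictMono (by decide)
    have hmem : ∀ j, e j ∈ A := fun j => A.orderEmbOfFin_mem hA j
    have key : ∀ a b : Fin 3, a < b → c (e a) (e b) = i := by
      intro a b hab
      have hlt : e a < e b := e.strictMono hab
      have hcard : ({e a, e b} : Finset (Fin n)).card = 2 := card_pair hlt.ne
      have := hall {e a, e b} (by
        intro t ht
        simp only [mem_insert, mem_singleton] at ht
        rcases ht with rfl | rfl <;> exact hmem _) hcard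
      obtain ⟨h1, h2⟩ := (mem_filter.1 this).2
      have hf : (![e a, e b] : Fin 2 → Fin n) = ({e a, e b} : Finset (Fin n)).orderEmbOfFin h1 := by
        apply orderEmbOfFin_unique
        · intro j
          fin_cases j <;> simp
        · intro j j' hj
          fin_cases j <;> fin_cases j' <;> simp_all
      rw [← hf] at h2
      simpa using h2
    refine hmono (e 0) (e 1) (e 2) (by exact_mod_cast l01) (by exact_mod_cast l12) (e 2).isLt ⟨?_, ?_⟩
    · rw [key 0 1 (by decide), key 0 2 (by decide)]
    · rw [key 0 1 (by decide), key 1 2 (by decide)]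
  · intro s hs
    exact ⟨⟨c (s.orderEmbOfFin hs 0) (s.orderEmbOfFin hs 1), hc _ _⟩,
      mem_filter.2 ⟨mem_univ _, hs, rfl⟩⟩

theorem cover_of_col3 {n m : ℕ} (h : Col3 n m) :
    ∃ H : Fin m → Finset (Finset (Fin n)), IsCover 3 n m H := by
  classical
  obtain ⟨c, hc, hmono⟩ := h
  refine ⟨fun i => univ.filter fun s => ∃ h : s.card = 3,
    c (s.orderEmbOfFin h 0) (s.orderEmbOfFin h 1) (s.orderEmbOfFin h 2) = i, ?_, ?_, ?_⟩
  · intro i s hs
    exact (mem_filter.1 hs).2.1
  · intro i A hA hall
    set e := A.orderEmbOfFin hA with he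
    have l01 : e 0 < e 1 := e.strictMono (by decide)
    have l12 : e 1 < e 2 := e.strictMono (by decide)
    have l23 : e 2 < e 3 := e.strictMono (by decide)
    have hmem : ∀ j, e j ∈ A := fun j => A.orderEmbOfFin_mem hA j
    have key : ∀ a b d : Fin 4, a < b → b < d → c (e a) (e b) (e d) = i := by
      intro a b d hab hbd
      have hlt : e a < e b := e.strictMono hab
      have hlt2 : e b < e d := e.strictMono hbd
      have hcard : ({e a, e b, e d} : Finset (Fin n)).card = 3 :=
        card_eq_three.2 ⟨_, _, _, hlt.ne, (hlt.trans hlt2).ne, hlt2.ne, rfl⟩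
      have := hall {e a, e b, e d} (by
        intro t ht
        simp only [mem_insert, mem_singleton] at ht
        rcases ht with rfl | rfl | rfl <;> exact hmem _) hcard
      obtain ⟨h1, h2⟩ := (mem_filter.1 this).2
      have hf : (![e a, e b, e d] : Fin 3 → Fin n) =
          ({e a, e b, e d} : Finset (Fin n)).orderEmbOfFin h1 := by
        apply orderEmbOfFin_unique
        · intro j
          fin_cases j <;> simp
        · have h3 := hlt.trans hlt2
          intro j j' hj
          fin_cases j <;> fin_cases j' <;> simp_all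
      rw [← hf] at h2
      simpa using h2
    refine hmono (e 0) (e 1) (e 2) (e 3) (by exact_mod_cast l01) (by exact_mod_cast l12)
      (by exact_mod_cast l23) (e 3).isLt ⟨?_, ?_, ?_⟩
    · rw [key 0 1 2 (by decide) (by decide), key 0 1 3 (by decide) (by decide)]
    · rw [key 0 1 2 (by decide) (by decide), key 0 2 3 (by decide) (by decide)]
    · rw [key 0 1 2 (by decide) (by decide), key 1 2 3 (by decide) (by decide)]
  · intro s hs
    exact ⟨⟨c (s.orderEmbOfFin hs 0) (s.orderEmbOfFin hs 1) (s.orderEmbOfFin hs 2), hc _ _ _⟩,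
      mem_filter.2 ⟨mem_univ _, hs, rfl⟩⟩

end Pool.Agent.R80.R3
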