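import Pool.Agent.R80.R3.Conv

/-! # Project R3 (MP_fafa1c_co), piece by helper682 -/

set_option autoImplicit false

namespace Pool.Agent.R80.R3.ER

/-- the greedy state: `j` points and the set of the remaining candidates -/
structure St (c : ℕ → ℕ → ℕ → ℕ) (n j : ℕ) (x : ℕ → ℕ) (χ : ℕ → ℕ → ℕ) (S : Finset ℕ) :
    Prop where
  lt : ∀ a b, a < b → b < j → x a < x b
  lts : ∀ a, a < j → ∀ y ∈ S, x a < y
  ltn : ∀ y ∈ S, y < n
  col : ∀ a b, a < b → b < j → ∀ y ∈ S, c (x a) (x b) y = χ a b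
  colx : ∀ a b e, a < b → b < e → e < j → c (x a) (x b) (x e) = χ a b

theorem step {c : ℕ → ℕ → ℕ → ℕ} {m n j T : ℕ} (hm : 1 ≤ m) (hc : ∀ x y z, c x y z < m)
    {x : ℕ → ℕ} {χ : ℕ → ℕ → ℕ} {S : Finset ℕ} (h : St c n j x χ S)
    (hS : 2 * m ^ j * T ≤ S.card) (hT : 1 ≤ T) :
    ∃ (x' : ℕ → ℕ) (χ' : ℕ → ℕ → ℕ) (S' : Finset ℕ), St c n (j + 1) x' χ' S' ∧ T ≤ S'.card := by
  classical
  have hmj : 1 ≤ m ^ j := Nat.one_le_pow _ _ hm
  have hmT : 1 ≤ m ^ j * T := Nat.mul_pos hmj hT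
  have hS' : 2 * (m ^ j * T) ≤ S.card := by rw [← mul_assoc]; exact hS
  have hne : S.Nonempty := Finset.card_pos.1 (by omega)
  set p := S.min' hne with hp
  have hpS : p ∈ S := S.min'_mem hne
  set f : ℕ → (Fin j → Fin m) := fun y a => ⟨c (x a) p y, hc _ _ _⟩ with hf
  have hcard : (S.erase p).card = S.card - 1 := Finset.card_erase_of_mem hpS
  obtain ⟨v, -, hv⟩ := Finset.exists_le_card_fiber_of_mul_le_card_of_maps_to
    (s := S.erase p) (t := (Finset.univ : Finset (Fin j → Fin m))) (f := f) (n := T)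
    (fun _ _ => Finset.mem_univ _) ⟨fun _ => ⟨0, hm⟩, Finset.mem_univ _⟩ (by
      rw [Finset.card_univ, Fintype.card_fun, Fintype.card_fin, Fintype.card_fin, hcard]
      omega)
  refine ⟨fun a => if a = j then p else x a,
    fun a b => if b = j then (if h : a < j then (v ⟨a, h⟩ : ℕ) else 0) else χ a b,
    (S.erase p).filter (fun y => f y = v), ?_, hv⟩
  have hmem : ∀ y ∈ (S.erase p).filter (fun y => f y = v), y ≠ p ∧ y ∈ S ∧ f y = v := by
    intro y hy
    rw [Finset.mem_filter, Finset.mem_erase] at hy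
    exact ⟨hy.1.1, hy.1.2, hy.2⟩
  constructor
  · intro a b hab hb
    have ha : a ≠ j := by omega
    rw [if_neg ha]
    by_cases hbj : b = j
    · rw [if_pos hbj]
      exact h.lts a (by omega) p hpS
    · rw [if_neg hbj]
      exact h.lt a b hab (by omega)
  · intro a ha y hy
    obtain ⟨h1, h2, -⟩ := hmem y hy
    by_cases haj : a = j
    · rw [if_pos haj]
      exact lt_of_le_of_ne (S.min'_le y h2) (Ne.symm h1)
    · rw [if_neg haj]
      exact h.lts a (by omega) y h2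
  · intro y hy
    exact h.ltn y (hmem y hy).2.1
  · intro a b hab hb y hy
    obtain ⟨h1, h2, h3⟩ := hmem y hy
    have ha : a ≠ j := by omega
    rw [if_neg ha]
    by_cases hbj : b = j
    · have haj : a < j := by omega
      rw [if_pos hbj, if_pos hbj, dif_pos haj, ← h3]
    · rw [if_neg hbj, if_neg hbj]
      exact h.col a b hab (by omega) y h2
  · intro a b e hab hbe he
    have ha : a ≠ j := by omega
    have hb : b ≠ j := by omega
    rw [if_neg ha, if_neg hb, if_neg hb]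
    by_cases hej : e = j
    · rw [if_pos hej]
      exact h.col a b hab (by omega) p hpS
    · rw [if_neg hej]
      exact h.colx a b e hab hbe (by omega)

theorem iter {c : ℕ → ℕ → ℕ → ℕ} {m n K : ℕ} (hm : 1 ≤ m) (hc : ∀ x y z, c x y z < m)
    (hn : (2 * m) ^ (K ^ 2) ≤ n) : ∀ j ≤ K, ∃ (x : ℕ → ℕ) (χ : ℕ → ℕ → ℕ) (S : Finset ℕ),
      St c n j x χ S ∧ (2 * m) ^ (K * (K - j)) ≤ S.card := by
  intro j
  induction j with
  | zero =>
    intro _
    refine ⟨fun _ => 0, fun _ _ => 0, Finset.range n, ⟨?_, ?_, ?_, ?_, ?_⟩, ?_⟩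
    · intro a b _ hb; omega
    · intro a ha; omega
    · intro y hy; exact Finset.mem_range.1 hy
    · intro a b _ hb; omega
    · intro a b e _ _ he; omega
    · rw [Finset.card_range, Nat.sub_zero, ← sq]; exact hn
  | succ j ih =>
    intro hj
    obtain ⟨x, χ, S, hSt, hS⟩ := ih (by omega)
    have hT : 1 ≤ (2 * m) ^ (K * (K - (j + 1))) := Nat.one_le_pow _ _ (by omega)
    refine step hm hc hSt (le_trans ?_ hS) hT
    have e1 : K * (K - j) = K + K * (K - (j + 1)) := by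
      obtain ⟨r, hr⟩ : ∃ r, K - j = r + 1 := ⟨K - j - 1, by omega⟩
      have hr2 : K - (j + 1) = r := by omega
      rw [hr, hr2]; ring
    rw [e1, pow_add]
    apply Nat.mul_le_mul_right
    have h1 : m ^ j ≤ m ^ K := Nat.pow_le_pow_right hm (by omega)
    have h2 : 2 ≤ 2 ^ K := by
      calc 2 = 2 ^ 1 := by norm_num
        _ ≤ 2 ^ K := Nat.pow_le_pow_right (by norm_num) (by omega)
    calc 2 * m ^ j ≤ 2 ^ K * m ^ K := Nat.mul_le_mul h2 h1
      _ = (2 * m) ^ K := by rw [mul_pow]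

theorem erdos_rado (N m n : ℕ) (hm : 1 ≤ m) (hn : (2 * m) ^ ((N + 1) ^ 2) ≤ n)
    (h : Col3 n m) : Col2 N m := by
  obtain ⟨c, hc, hc4⟩ := h
  obtain ⟨x, χ, S, hSt, hS⟩ := iter hm hc hn N (by omega)
  have hpos : 0 < S.card := lt_of_lt_of_le (Nat.pow_pos (by omega)) hS
  obtain ⟨y, hy⟩ := Finset.card_pos.1 hpos
  have hlt : ∀ a b, a < b → b < N → χ a b < m := by
    intro a b hab hb
    rw [← hSt.col a b hab hb y hy]
    exact hc _ _ _
  refine ⟨fun a b => if χ a b < m then χ a b else 0, ?_, ?_⟩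
  · intro a b
    beta_reduce
    split_ifs with h1
    · exact h1
    · omega
  · intro a b e hab hbe he
    beta_reduce
    rw [if_pos (hlt a b hab (by omega)), if_pos (hlt a e (by omega) he),
      if_pos (hlt b e hbe he)]
    rintro ⟨h1, h2⟩
    apply hc4 (x a) (x b) (x e) y (hSt.lt a b hab (by omega)) (hSt.lt b e hbe he)
      (hSt.lts e he y hy) (hSt.ltn y hy)
    rw [hSt.colx a b e hab hbe he, hSt.col a b hab (by omega) y hy,
      hSt.col a e (by omega) he y hy, hSt.col b e hbe he y hy]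
    exact ⟨rfl, h1, h2⟩




end Pool.Agent.R80.R3.ER
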