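import Pool.Agent.R80.R3.Conv

/-! # Project R3 (MP_fafa1c_co), piece by helper159 -/

set_option autoImplicit false

namespace Pool.Agent.R80.R3.SQ

theorem mono {n n' m m' : ℕ} (h : Col2 n m) (hn : n' ≤ n) (hm : m ≤ m') : Col2 n' m' := by
  obtain ⟨c, h1, h2⟩ := h
  exact ⟨c, fun x y => lt_of_lt_of_le (h1 x y) hm,
    fun x y z hxy hyz hz => h2 x y z hxy hyz (lt_of_lt_of_le hz hn)⟩

theorem mono3 {n n' m m' : ℕ} (h : Col3 n m) (hn : n' ≤ n) (hm : m ≤ m') : Col3 n' m' := by
  obtain ⟨c, h1, h2⟩ := h
  exact ⟨c, fun x y z => lt_of_lt_of_le (h1 x y z) hm,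
    fun x y z w hxy hyz hzw hw => h2 x y z w hxy hyz hzw (lt_of_lt_of_le hw hn)⟩

theorem square (N m : ℕ) (h : Col2 N m) : Col2 (N ^ 2) (2 * m) := by
  obtain ⟨c, h1, h2⟩ := h
  refine ⟨fun x y => if x / N ≠ y / N then c (x / N) (y / N) else m + c (x % N) (y % N), ?_, ?_⟩
  · intro x y
    dsimp only
    split_ifs
    · have := h1 (x / N) (y / N); omega
    · have := h1 (x % N) (y % N); omega
  · intro x y z hxy hyz hz
    dsimp only
    have hN : 0 < N := by
      rcases Nat.eq_zero_or_pos N with h0 | h0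
      · subst h0; simp at hz
      · exact h0
    have ha := h1 (x / N) (y / N)
    have hb := h1 (x / N) (z / N)
    have hc := h1 (y / N) (z / N)
    have hxy' : x / N ≤ y / N := Nat.div_le_div_right hxy.le
    have hyz' : y / N ≤ z / N := Nat.div_le_div_right hyz.le
    have hz' : z / N < N := by
      rw [Nat.div_lt_iff_lt_mul hN]
      rw [pow_two] at hz
      exact hz
    rintro ⟨e1, e2⟩
    by_cases hd : x / N ≠ y / N
    · rw [if_pos hd] at e1 e2
      by_cases hd2 : x / N ≠ z / N
      · rw [if_pos hd2] at e1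
        by_cases hd3 : y / N ≠ z / N
        · rw [if_pos hd3] at e2
          exact h2 _ _ _ (lt_of_le_of_ne hxy' hd) (lt_of_le_of_ne hyz' hd3) hz' ⟨e1, e2⟩
        · rw [if_neg hd3] at e2
          omega
      · rw [if_neg hd2] at e1
        omega
    · rw [if_neg hd] at e1 e2
      push Not at hd
      by_cases hd2 : x / N ≠ z / N
      · rw [if_pos hd2] at e1
        omega
      · rw [if_neg hd2] at e1
        push Not at hd2
        rw [if_neg (by rw [not_not]; omega)] at e2
        have m1 := Nat.div_add_mod x N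
        have m2 := Nat.div_add_mod y N
        have m3 := Nat.div_add_mod z N
        have q2 : N * (x / N) = N * (y / N) := by rw [hd]
        have q3 : N * (x / N) = N * (z / N) := by rw [hd2]
        exact h2 (x % N) (y % N) (z % N) (by omega) (by omega) (Nat.mod_lt _ hN)
          ⟨by omega, by omega⟩

theorem bits (k : ℕ) (hk : 1 ≤ k) : Col2 (2 ^ k) k := by
  classical
  have key : ∀ x y : ℕ, x < y → y < 2 ^ k → ∃ i, i < k ∧ x.testBit i ≠ y.testBit i := by
    intro x y hxy hy
    by_contra hcon
    push Not at hcon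
    apply hxy.ne
    apply Nat.eq_of_testBit_eq
    intro i
    by_cases hi : i < k
    · exact hcon i hi
    · have hp : 2 ^ k ≤ 2 ^ i := Nat.pow_le_pow_right (by norm_num) (by omega)
      rw [Nat.testBit_lt_two_pow (by omega : x < 2 ^ i), Nat.testBit_lt_two_pow (by omega : y < 2 ^ i)]
  refine ⟨fun x y => if h : ∃ i, i < k ∧ x.testBit i ≠ y.testBit i then Nat.find h else 0, ?_, ?_⟩
  · intro x y
    dsimp only
    split_ifs with h
    · exact (Nat.find_spec h).1
    · omega
  · intro x y z hxy hyz hz
    dsimp only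
    have k1 := key x y hxy (by omega)
    have k2 := key x z (by omega) hz
    have k3 := key y z hyz hz
    rw [dif_pos k1, dif_pos k2, dif_pos k3]
    rintro ⟨e1, e2⟩
    have s1 := (Nat.find_spec k1).2
    have s2 := (Nat.find_spec k2).2
    have s3 := (Nat.find_spec k3).2
    rw [← e1] at s2
    rw [← e2] at s3
    generalize Nat.find k1 = d at s1 s2 s3
    cases hx : x.testBit d <;> cases hy : y.testBit d <;> cases hz : z.testBit d <;>
      simp_all

end Pool.Agent.R80.R3.SQ
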