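import Pool.Agent.R80.R3.Up
import Pool.Agent.R80.R3.ER
import Pool.Agent.R80.R3.SQ

/-! # Project R3 (MP_fafa1c_co): assembly -/

set_option autoImplicit false

namespace Pool.Agent.R80.R3

theorem f_le {r n m : ℕ} (h : ∃ H : Fin m → Finset (Finset (Fin n)), IsCover r n m H) :
    f r n ≤ m := Nat.sInf_le h

theorem f_spec {r n m : ℕ} (h : ∃ H : Fin m → Finset (Finset (Fin n)), IsCover r n m H) :
    ∃ H : Fin (f r n) → Finset (Finset (Fin n)), IsCover r n (f r n) H :=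
  Nat.sInf_mem (s := {m | ∃ H : Fin m → Finset (Finset (Fin n)), IsCover r n m H}) ⟨m, h⟩

theorem cover_pos {r n m : ℕ} (hr : r ≤ n) {H : Fin m → Finset (Finset (Fin n))}
    (h : IsCover r n m H) : 1 ≤ m := by
  obtain ⟨s, -, hs⟩ := Finset.exists_subset_card_eq (s := (Finset.univ : Finset (Fin n))) (n := r)
    (by simpa using hr)
  obtain ⟨i, -⟩ := h.2.2 s hs
  have := i.isLt
  omega

theorem ex2 (n : ℕ) : ∃ m, ∃ H : Fin m → Finset (Finset (Fin n)), IsCover 2 n m H := by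
  refine ⟨n + 1, cover_of_col2 (SQ.mono (SQ.bits (n + 1) (by omega)) ?_ le_rfl)⟩
  exact (Nat.lt_succ_self n).le.trans (Nat.lt_two_pow_self).le

/-- `Col2` at the minimum -/
theorem col2_f {n : ℕ} (hn : 2 ≤ n) : Col2 n (f 2 n) := by
  obtain ⟨m, hm⟩ := ex2 n
  obtain ⟨H, hH⟩ := f_spec hm
  exact col2_of_cover (cover_pos hn hH) hH

theorem up {n : ℕ} (hn : 3 ≤ n) : Col3 n (2 * f 2 (Nat.clog 2 n)) := by
  have hL : 2 ≤ Nat.clog 2 n := by
    by_contra h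
    have h1 : n ≤ 2 ^ (Nat.clog 2 n) := Nat.le_pow_clog (by norm_num) n
    have h2 : 2 ^ (Nat.clog 2 n) ≤ 2 ^ 1 := Nat.pow_le_pow_right (by norm_num) (by omega)
    omega
  exact SQ.mono3 (Up.step_up _ _ (col2_f hL)) (Nat.le_pow_clog (by norm_num) n) le_rfl

theorem upper (n : ℕ) : f 3 n ≤ 2 * f 2 (Nat.clog 2 n) := by
  rcases Nat.lt_or_ge n 3 with h | h
  · have h0 : f 3 n ≤ 0 := by
      refine f_le ⟨fun i => i.elim0, fun i => i.elim0, fun i => i.elim0, fun s hs => ?_⟩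
      have := Finset.card_le_univ s
      rw [Fintype.card_fin] at this
      omega
    omega
  · exact f_le (cover_of_col3 (up h))

theorem col3_f {n : ℕ} (hn : 3 ≤ n) : 1 ≤ f 3 n ∧ Col3 n (f 3 n) := by
  obtain ⟨H, hH⟩ := f_spec (cover_of_col3 (up hn))
  exact ⟨cover_pos hn hH, col3_of_cover (cover_pos hn hH) hH⟩

theorem pow_big : ∀ s : ℕ, 12 ≤ s → 128 * (2 * s + 1) ≤ 2 ^ s := by
  intro s hs
  induction s, hs using Nat.le_induction with
  | base => norm_num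
  | succ k hk ih =>
    have h1 : 2 ^ 12 ≤ 2 ^ k := Nat.pow_le_pow_right (by norm_num) hk
    rw [pow_succ]
    omega

theorem core {n : ℕ} (hn : 24 ≤ Nat.clog 2 (Nat.clog 2 n)) :
    2 ≤ n ∧ 1 ≤ f 3 n ∧ ∃ N, Col2 N (f 3 n) ∧ Nat.clog 2 n ≤ (N ^ 2) ^ 2 := by
  set L := Nat.clog 2 n with hL
  set t := Nat.clog 2 L with ht
  have hL2 : 2 ≤ L := by
    by_contra h
    have h1 : L ≤ 1 := by omega
    have h2 : t = 0 := by rw [ht]; exact Nat.clog_of_right_le_one h1 2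
    omega
  have hLt : L ≤ 2 ^ t := Nat.le_pow_clog (by norm_num) L
  have hLt2 : 2 ^ (t - 1) < L := Nat.pow_pred_clog_lt_self (by norm_num) (by omega)
  have hn2 : 2 ≤ n := by
    by_contra h
    have h1 : n ≤ 1 := by omega
    have h2 : L = 0 := by rw [hL]; exact Nat.clog_of_right_le_one h1 2
    omega
  have hnL : 2 ^ (L - 1) < n := Nat.pow_pred_clog_lt_self (by norm_num) (by omega)
  have hn3 : 3 ≤ n := by
    have : 2 ^ 1 ≤ 2 ^ (L - 1) := Nat.pow_le_pow_right (by norm_num) (by omega)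
    omega
  obtain ⟨hm1, hcol⟩ := col3_f hn3
  have hf2 : f 2 L ≤ t := f_le (cover_of_col2 (SQ.mono (SQ.bits t (by omega)) hLt le_rfl))
  have hm2 : f 3 n ≤ 2 * t := (upper n).trans (Nat.mul_le_mul_left 2 hf2)
  set m := f 3 n with hm
  set N := 2 ^ ((t + 3) / 4) with hN
  have hN1 : 1 ≤ N := Nat.one_le_two_pow
  have hN4 : L ≤ (N ^ 2) ^ 2 := by
    rw [← pow_mul, hN, ← pow_mul]
    exact hLt.trans (Nat.pow_le_pow_right (by norm_num) (by omega))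
  obtain ⟨s, hs⟩ : ∃ s, s = t / 2 := ⟨_, rfl⟩
  have hs12 : 12 ≤ s := by omega
  have hN2 : (N + 1) ^ 2 ≤ 4 * 2 ^ (s + 2) := by
    have h1 : (N + 1) ^ 2 ≤ (2 * N) ^ 2 := Nat.pow_le_pow_left (by omega) 2
    have h2 : N ^ 2 ≤ 2 ^ (s + 2) := by
      rw [hN, ← pow_mul]
      exact Nat.pow_le_pow_right (by norm_num) (by omega)
    calc (N + 1) ^ 2 ≤ (2 * N) ^ 2 := h1
      _ = 4 * N ^ 2 := by ring
      _ ≤ 4 * 2 ^ (s + 2) := Nat.mul_le_mul_left _ h2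
  have hbig : 4 * t * (N + 1) ^ 2 ≤ L - 1 := by
    have h1 : 4 * t * (N + 1) ^ 2 ≤ 4 * (2 * s + 1) * (4 * 2 ^ (s + 2)) :=
      Nat.mul_le_mul (Nat.mul_le_mul_left _ (by omega)) hN2
    have h2 : 4 * (2 * s + 1) * (4 * 2 ^ (s + 2)) * 2 = (128 * (2 * s + 1)) * 2 ^ s := by
      rw [pow_add]
      ring
    have h3 : (128 * (2 * s + 1)) * 2 ^ s ≤ 2 ^ s * 2 ^ s := Nat.mul_le_mul_right _ (pow_big s hs12)
    have h4 : 2 ^ s * 2 ^ s ≤ 2 * 2 ^ (t - 1) := by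
      rw [← pow_add, ← pow_succ']
      exact Nat.pow_le_pow_right (by norm_num) (by omega)
    omega
  have hcond : (2 * m) ^ ((N + 1) ^ 2) ≤ n := by
    calc (2 * m) ^ ((N + 1) ^ 2) ≤ (2 ^ (4 * t)) ^ ((N + 1) ^ 2) := by
          apply Nat.pow_le_pow_left
          exact (by omega : 2 * m ≤ 4 * t).trans (Nat.lt_two_pow_self).le
      _ = 2 ^ (4 * t * (N + 1) ^ 2) := (pow_mul _ _ _).symm
      _ ≤ 2 ^ (L - 1) := Nat.pow_le_pow_right (by norm_num) hbig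
      _ ≤ n := hnL.le
  exact ⟨hn2, hm1, N, ER.erdos_rado N m n hm1 hcond hcol, hN4⟩

theorem lower {n : ℕ} (hn : 24 ≤ Nat.clog 2 (Nat.clog 2 n)) :
    f 2 (Nat.clog 2 n) ≤ 4 * f 3 n := by
  obtain ⟨-, -, N, h1, hN4⟩ := core hn
  have h2 := SQ.square _ _ (SQ.square _ _ h1)
  have h3 := f_le (cover_of_col2 (SQ.mono h2 hN4 le_rfl))
  omega

theorem bits_upper {n : ℕ} (hn : 3 ≤ n) : f 3 n ≤ 2 * Nat.clog 2 (Nat.clog 2 n) := by
  have hL : 2 ≤ Nat.clog 2 n := by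
    by_contra h
    have h1 : n ≤ 2 ^ (Nat.clog 2 n) := Nat.le_pow_clog (by norm_num) n
    have h2 : 2 ^ (Nat.clog 2 n) ≤ 2 ^ 1 := Nat.pow_le_pow_right (by norm_num) (by omega)
    omega
  have ht : 1 ≤ Nat.clog 2 (Nat.clog 2 n) := Nat.clog_pos (by norm_num) hL
  exact (upper n).trans (Nat.mul_le_mul_left 2 (f_le (cover_of_col2
    (SQ.mono (SQ.bits _ ht) (Nat.le_pow_clog (by norm_num) _) le_rfl))))

end Pool.Agent.R80.R3
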