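import Mathlib

/-! # Project R3 (MP_fafa1c_co): real estimates -/

set_option autoImplicit false

namespace Pool.Agent.R80.R3

theorem real_part {n m : ℕ} (hm : 1 ≤ m) (hn : 2 ≤ n) (hX : 9 ≤ Real.log (Real.log n))
    (h : Nat.clog 2 n ≤ (3 * m.factorial) ^ 4) :
    Real.log (Real.log n) / (8 * Real.log (Real.log (Real.log n))) ≤ m := by
  set X := Real.log (Real.log n) with hXd
  have hn0 : (0 : ℝ) < n := by positivity
  have hlogX : 2 ≤ Real.log X := by
    rw [Real.le_log_iff_exp_le (by linarith)]
    have h1 : Real.exp 2 = Real.exp 1 * Real.exp 1 := by rw [← Real.exp_add]; norm_num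
    have h2 := Real.exp_one_lt_d9
    have h3 := Real.exp_pos 1
    nlinarith
  have hlogn : 0 < Real.log n := by
    by_contra hc
    have h1 : Real.log n ≤ 0 := by linarith
    have h2 : Real.log n = 0 := le_antisymm h1 (Real.log_natCast_nonneg n)
    rw [hXd, h2, Real.log_zero] at hX
    linarith
  by_contra hcon
  push Not at hcon
  have hm0 : (1 : ℝ) ≤ m := by exact_mod_cast hm
  have hmX : (m : ℝ) ≤ X := by
    refine hcon.le.trans ?_
    rw [div_le_iff₀ (by linarith)]
    nlinarith
  -- log n ≤ L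
  have hL : Real.log n ≤ (Nat.clog 2 n : ℝ) := by
    have h1 : (n : ℝ) ≤ (2 : ℝ) ^ (Nat.clog 2 n) := by exact_mod_cast Nat.le_pow_clog (by norm_num) n
    have h2 : Real.log n ≤ Real.log ((2 : ℝ) ^ (Nat.clog 2 n)) := Real.log_le_log hn0 h1
    rw [Real.log_pow] at h2
    have h3 : Real.log 2 ≤ 1 := by
      have := Real.log_two_lt_d9
      linarith
    have h4 : (0 : ℝ) ≤ (Nat.clog 2 n : ℝ) := by positivity
    nlinarith
  have hf : (m.factorial : ℝ) ≤ (m : ℝ) ^ m := by exact_mod_cast Nat.factorial_le_pow m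
  have hL2 : Real.log n ≤ (3 * (m : ℝ) ^ m) ^ 4 := by
    refine hL.trans ?_
    have h1 : (Nat.clog 2 n : ℝ) ≤ (3 * (m.factorial : ℝ)) ^ 4 := by exact_mod_cast h
    refine h1.trans ?_
    gcongr
  have hX2 : X ≤ 4 * (Real.log 3 + m * Real.log m) := by
    have h1 := Real.log_le_log hlogn hL2
    rw [Real.log_pow, Real.log_mul (by norm_num) (by positivity), Real.log_pow] at h1
    exact_mod_cast h1
  have hlogm : Real.log m ≤ Real.log X := Real.log_le_log (by linarith) hmX
  have h8 : (m : ℝ) * (8 * Real.log X) < X := by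
    rw [lt_div_iff₀ (by linarith)] at hcon
    exact hcon
  have h3 : Real.log 3 ≤ 1.1 := by
    have h1 : Real.log 3 < 1.0986122888 := Real.log_three_lt_d9
    linarith
  have h5 : (m : ℝ) * Real.log m ≤ m * Real.log X := mul_le_mul_of_nonneg_left hlogm (by linarith)
  nlinarith

theorem real_up {n : ℕ} (hX : 9 ≤ Real.log (Real.log n)) :
    (Nat.clog 2 (Nat.clog 2 n) : ℝ) ≤ 2 * Real.log (Real.log n) := by
  set X := Real.log (Real.log n) with hXd
  have hlogn : 0 < Real.log n := by
    by_contra hc
    have h1 : Real.log n ≤ 0 := by linarith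
    have h2 : Real.log n = 0 := le_antisymm h1 (Real.log_natCast_nonneg n)
    rw [hXd, h2, Real.log_zero] at hX
    linarith
  have hn1 : 1 < n := by
    by_contra hc
    have : (n : ℝ) ≤ 1 := by exact_mod_cast not_lt.1 hc
    have := Real.log_nonpos (by positivity) this
    linarith
  have hlog10 : 10 ≤ Real.log n := by
    have h1 : Real.exp X = Real.log n := Real.exp_log hlogn
    have h2 := Real.add_one_le_exp X
    linarith
  have l2a := Real.log_two_gt_d9
  have l2b := Real.log_two_lt_d9
  set L := Nat.clog 2 n with hL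
  have hL1 : 1 < L := by
    by_contra hc
    have h1 : (n : ℝ) ≤ (2 : ℝ) ^ L := by exact_mod_cast Nat.le_pow_clog (by norm_num) n
    have h2 : Real.log n ≤ L * Real.log 2 := by
      rw [← Real.log_pow]
      exact Real.log_le_log (by positivity) h1
    have h3 : (L : ℝ) ≤ 1 := by exact_mod_cast not_lt.1 hc
    nlinarith
  have hLub : (L : ℝ) ≤ 3 * Real.log n := by
    have h1 : (2 : ℝ) ^ (L - 1) < n := by
      exact_mod_cast Nat.pow_pred_clog_lt_self (by norm_num) hn1
    have h2 : ((L - 1 : ℕ) : ℝ) * Real.log 2 < Real.log n := by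
      rw [← Real.log_pow]
      exact Real.log_lt_log (by positivity) h1
    rw [Nat.cast_sub hL1.le] at h2
    push_cast at h2
    nlinarith
  set t := Nat.clog 2 L with ht
  have ht1 : 1 ≤ t := Nat.clog_pos (by norm_num) hL1
  have h1 : (2 : ℝ) ^ (t - 1) < L := by
    exact_mod_cast Nat.pow_pred_clog_lt_self (by norm_num) hL1
  have h2 : ((t - 1 : ℕ) : ℝ) * Real.log 2 < Real.log L := by
    rw [← Real.log_pow]
    exact Real.log_lt_log (by positivity) h1
  have h3 : Real.log L ≤ Real.log 3 + X := by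
    have hL0 : (0 : ℝ) < L := by
      have : (1 : ℝ) < L := by exact_mod_cast hL1
      linarith
    have := Real.log_le_log hL0 hLub
    rwa [Real.log_mul (by norm_num) hlogn.ne'] at this
  have h4 : Real.log 3 < 1.0986122888 := Real.log_three_lt_d9
  rw [Nat.cast_sub ht1] at h2
  push_cast at h2
  nlinarith

end Pool.Agent.R80.R3
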