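import Pool.Agent.R80.R3.Conv

/-! # Project R3 (MP_fafa1c_co), piece by helper930 -/

set_option autoImplicit false

namespace Pool.Agent.R80.R3.Tri

/-- the recursive bound -/
def F : ℕ → ℕ
  | 0 => 1
  | (m + 1) => 1 + (m + 1) * F m

theorem F_le (m : ℕ) : F (m + 1) + 1 ≤ 3 * (m + 1).factorial := by
  induction m with
  | zero => simp [F]
  | succ m ih =>
    rw [Nat.factorial_succ (m + 1), F]
    have h1 : (m + 1 + 1) * (F (m + 1) + 1) ≤ (m + 1 + 1) * (3 * (m + 1).factorial) :=
      Nat.mul_le_mul_left _ ih
    have h2 : (m + 1 + 1) * (F (m + 1) + 1) = (m + 1 + 1) * F (m + 1) + (m + 1 + 1) := by ring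
    have h3 : (m + 1 + 1) * (3 * (m + 1).factorial) = 3 * ((m + 1 + 1) * (m + 1).factorial) := by
      ring
    rw [h2, h3] at h1
    omega

theorem key (c : ℕ → ℕ → ℕ) : ∀ (m : ℕ) (D S : Finset ℕ), D.card = m →
    (∀ x ∈ S, ∀ y ∈ S, x < y → c x y ∈ D) →
    (∀ x ∈ S, ∀ y ∈ S, ∀ z ∈ S, x < y → y < z → ¬ (c x y = c x z ∧ c x y = c y z)) →
    S.card ≤ F m := by
  intro m
  induction m with
  | zero =>
    intro D S hD hc _
    rw [Finset.card_eq_zero] at hD
    subst hD
    by_contra h
    have h1 : 1 < S.card := by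
      simp only [F] at h
      omega
    obtain ⟨a, ha, b, hb, hab⟩ := Finset.one_lt_card.1 h1
    rcases lt_or_gt_of_ne hab with h2 | h2
    · simpa using hc a ha b hb h2
    · simpa using hc b hb a ha h2
  | succ m ih =>
    intro D S hD hc ht
    rcases S.eq_empty_or_nonempty with h0 | h0
    · rw [h0, Finset.card_empty]
      exact Nat.zero_le _
    · obtain ⟨p, hp⟩ : ∃ p, p = S.min' h0 := ⟨_, rfl⟩
      have hpS : p ∈ S := by
        rw [hp]
        exact S.min'_mem h0
      have hmin : ∀ y ∈ S.erase p, p < y := by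
        intro y hy
        have h1 : p ≤ y := by
          rw [hp]
          exact S.min'_le y (Finset.mem_of_mem_erase hy)
        exact lt_of_le_of_ne h1 (Finset.ne_of_mem_erase hy).symm
      have hcard : S.card = (S.erase p).card + 1 := (Finset.card_erase_add_one hpS).symm
      have hmaps : ∀ y ∈ S.erase p, c p y ∈ D := fun y hy =>
        hc p hpS y (Finset.mem_of_mem_erase hy) (hmin y hy)
      have hsum : (S.erase p).card = ∑ d ∈ D, ((S.erase p).filter fun y => c p y = d).card :=
        Finset.card_eq_sum_card_fiberwise hmaps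
      have hfib : ∀ d ∈ D, ((S.erase p).filter fun y => c p y = d).card ≤ F m := by
        intro d hd
        refine ih (D.erase d) _ ?_ ?_ ?_
        · rw [Finset.card_erase_of_mem hd, hD]
          rfl
        · intro x hx y hy hxy
          rw [Finset.mem_filter] at hx hy
          have hxS := Finset.mem_of_mem_erase hx.1
          have hyS := Finset.mem_of_mem_erase hy.1
          refine Finset.mem_erase.2 ⟨fun h => ?_, hc x hxS y hyS hxy⟩
          exact ht p hpS x hxS y hyS (hmin x hx.1) hxy
            ⟨hx.2.trans hy.2.symm, hx.2.trans h.symm⟩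
        · intro x hx y hy z hz
          rw [Finset.mem_filter] at hx hy hz
          exact ht x (Finset.mem_of_mem_erase hx.1) y (Finset.mem_of_mem_erase hy.1) z
            (Finset.mem_of_mem_erase hz.1)
      have h2 : ∑ d ∈ D, ((S.erase p).filter fun y => c p y = d).card ≤ D.card * F m := by
        have := Finset.sum_le_card_nsmul D _ _ hfib
        simpa using this
      rw [hcard, hsum, F]
      rw [hD] at h2
      omega

theorem tri (n m : ℕ) (h : Col2 n m) : n + 1 ≤ 3 * m.factorial := by
  obtain ⟨c, hc, ht⟩ := h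
  cases m with
  | zero => exact absurd (hc 0 0) (Nat.not_lt_zero _)
  | succ m =>
    have h1 := key c (m + 1) (Finset.range (m + 1)) (Finset.range n) (Finset.card_range _)
      (fun x _ y _ _ => Finset.mem_range.2 (hc x y))
      (fun x _ y _ z hz hxy hyz => ht x y z hxy hyz (Finset.mem_range.1 hz))
    rw [Finset.card_range] at h1
    have h2 := F_le m
    omega

end Pool.Agent.R80.R3.Tri
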