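import Pool.Agent.R80.R3.Conv

/-! # Project R3 (MP_fafa1c_co), piece by helper95 -/

set_option autoImplicit false

namespace Pool.Agent.R80.R3.Up

theorem e_ex (x y : ℕ) : ∃ k, x / 2 ^ k = y / 2 ^ k := by
  refine ⟨x + y, ?_⟩
  have hx : x < 2 ^ (x + y) :=
    (Nat.lt_two_pow_self).trans_le (Nat.pow_le_pow_right (by norm_num) (by omega))
  have hy : y < 2 ^ (x + y) :=
    (Nat.lt_two_pow_self).trans_le (Nat.pow_le_pow_right (by norm_num) (by omega))
  rw [Nat.div_eq_of_lt hx, Nat.div_eq_of_lt hy]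

/-- one more than the highest bit where `x` and `y` differ -/
def e (x y : ℕ) : ℕ := Nat.find (e_ex x y)

theorem e_spec (x y : ℕ) : x / 2 ^ (e x y) = y / 2 ^ (e x y) := Nat.find_spec (e_ex x y)

theorem e_le {x y k : ℕ} (h : x / 2 ^ k = y / 2 ^ k) : e x y ≤ k := Nat.find_min' (e_ex x y) h

theorem e_min {x y k : ℕ} (h : k < e x y) : x / 2 ^ k ≠ y / 2 ^ k := Nat.find_min (e_ex x y) h

theorem e_up {x y k : ℕ} (h : e x y ≤ k) : x / 2 ^ k = y / 2 ^ k := by
  obtain ⟨j, rfl⟩ := Nat.exists_eq_add_of_le h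
  rw [pow_add, ← Nat.div_div_eq_div_mul, ← Nat.div_div_eq_div_mul, e_spec]

theorem e_pos {x y : ℕ} (h : x < y) : 1 ≤ e x y := by
  by_contra h0
  have h1 : e x y ≤ 0 := by omega
  have h2 := e_up h1
  simp at h2
  omega

theorem e_bd {x y N : ℕ} (h : x < y) (hy : y < 2 ^ N) : e x y ≤ N := by
  apply e_le
  rw [Nat.div_eq_of_lt hy, Nat.div_eq_of_lt (h.trans hy)]

theorem e_max {x y z : ℕ} (h1 : x < y) (h2 : y < z) : e x z = max (e x y) (e y z) := by
  apply le_antisymm
  · apply e_le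
    rw [e_up (le_max_left (e x y) (e y z)), e_up (le_max_right (e x y) (e y z))]
  · have h3 := e_spec x z
    have h4 : x / 2 ^ (e x z) ≤ y / 2 ^ (e x z) := Nat.div_le_div_right h1.le
    have h5 : y / 2 ^ (e x z) ≤ z / 2 ^ (e x z) := Nat.div_le_div_right h2.le
    exact max_le (e_le (by omega)) (e_le (by omega))

theorem e_ne {x y z : ℕ} (h1 : x < y) (h2 : y < z) : e x y ≠ e y z := by
  intro h
  obtain ⟨k, hk⟩ : ∃ k, e x y = k + 1 := ⟨e x y - 1, by have := e_pos h1; omega⟩
  have h3 : x / 2 ^ k ≠ y / 2 ^ k := e_min (by omega)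
  have h4 : y / 2 ^ k ≠ z / 2 ^ k := e_min (by omega)
  have h5 : x / 2 ^ k ≤ y / 2 ^ k := Nat.div_le_div_right h1.le
  have h6 : y / 2 ^ k ≤ z / 2 ^ k := Nat.div_le_div_right h2.le
  have h7 : x / 2 ^ (k + 1) = y / 2 ^ (k + 1) := e_up (by omega)
  have h8 : y / 2 ^ (k + 1) = z / 2 ^ (k + 1) := e_up (by omega)
  rw [pow_succ, ← Nat.div_div_eq_div_mul, ← Nat.div_div_eq_div_mul] at h7 h8
  omega

theorem step_up (N m : ℕ) (h : Col2 N m) : Col3 (2 ^ N) (2 * m) := by
  obtain ⟨c, hc, hm⟩ := h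
  refine ⟨fun x y z => if e x y < e y z then 2 * c (e x y - 1) (e y z - 1)
    else 2 * c (e y z - 1) (e x y - 1) + 1, ?_, ?_⟩
  · intro x y z
    dsimp only
    split_ifs
    · have := hc (e x y - 1) (e y z - 1)
      omega
    · have := hc (e y z - 1) (e x y - 1)
      omega
  · rintro x y z w hxy hyz hzw hw ⟨g1, g2, g3⟩
    dsimp only at g1 g2 g3
    rw [e_max hyz hzw] at g1
    rw [e_max hxy hyz] at g2
    have n1 := e_ne hxy hyz
    have n2 := e_ne hyz hzw
    have p1 := e_pos hxy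
    have p2 := e_pos hyz
    have p3 := e_pos hzw
    have b1 := e_bd hxy (hyz.trans (hzw.trans hw))
    have b2 := e_bd hyz (hzw.trans hw)
    have b3 := e_bd hzw hw
    generalize e x y = a at *
    generalize e y z = b at *
    generalize e z w = d at *
    rcases lt_or_gt_of_ne n1 with h1 | h1
    · rcases lt_or_gt_of_ne n2 with h2 | h2
      · rw [max_eq_right h2.le, if_pos h1, if_pos (h1.trans h2)] at g1
        rw [if_pos h1, if_pos h2] at g3
        exact hm (a - 1) (b - 1) (d - 1) (by omega) (by omega) (by omega) ⟨by omega, by omega⟩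
      · rw [if_pos h1, if_neg (by omega)] at g3
        omega
    · rcases lt_or_gt_of_ne n2 with h2 | h2
      · rw [if_neg (by omega), if_pos h2] at g3
        omega
      · rw [max_eq_left h1.le, if_neg (by omega), if_neg (by omega)] at g2
        rw [if_neg (by omega), if_neg (by omega)] at g3
        exact hm (d - 1) (b - 1) (a - 1) (by omega) (by omega) (by omega) ⟨by omega, by omega⟩

end Pool.Agent.R80.R3.Up
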